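import Pool.Agent.W2helper1.DG.Stm

/-!
# Piece G2 of project DG: the planar configuration
-/

set_option autoImplicit false

namespace Pool.Agent.W2helper54.DG

open Pool.Agent.W2helper1.DG

lemma col_rot (a b c : ℝ × ℝ) : Col a b c = Col b c a := by
  unfold Col; ring

lemma col_line (p q a b : ℝ × ℝ) (τ : ℝ) :
    Col p q (a + τ • (b - a)) = (1 - τ) * Col p q a + τ * Col p q b := by
  unfold Col
  simp only [Prod.fst_add, Prod.snd_add, Prod.smul_fst, Prod.smul_snd, Prod.fst_sub, Prod.snd_sub,
    smul_eq_mul]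
  ring

lemma line_inj {a b : ℝ × ℝ} (hab : a ≠ b) {τ σ : ℝ} (h : a + τ • (b - a) = a + σ • (b - a)) :
    τ = σ := by
  have h1 := add_left_cancel h
  by_contra hne
  apply hab
  have h2 : (τ - σ) • (b - a) = 0 := by rw [sub_smul, h1, sub_self]
  rcases smul_eq_zero.1 h2 with h3 | h3
  · exact absurd (sub_eq_zero.1 h3) hne
  · exact (sub_eq_zero.1 h3).symm

/-- collinear with two points which are collinear with a pair -/
lemma col_trans {a b u v : ℝ × ℝ} (hab : a ≠ b) (h1 : Col a b u = 0) (h2 : Col a b v = 0) :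
    Col u v a = 0 := by
  unfold Col at *
  have h3 : b.1 - a.1 ≠ 0 ∨ b.2 - a.2 ≠ 0 := by
    by_contra hcon
    push Not at hcon
    exact hab (Prod.ext (by linarith [hcon.1]) (by linarith [hcon.2]))
  rcases h3 with h3 | h3
  · apply mul_left_cancel₀ h3
    linear_combination (a.1 - v.1) * h1 + (u.1 - a.1) * h2
  · apply mul_left_cancel₀ h3
    linear_combination (a.2 - v.2) * h1 + (u.2 - a.2) * h2

/-- avoiding a finite set of points -/
lemma avoid {Y : Set (ℝ × ℝ)} (hY : Y.Finite) {a b : ℝ × ℝ} (hab : a ≠ b) {T : Set ℝ}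
    (hT : T.Infinite) : ∃ τ ∈ T, a + τ • (b - a) ∉ Y ∧ ∀ p ∈ Y, ∀ q ∈ Y,
      Col p q (a + τ • (b - a)) = 0 → Col p q a = 0 ∧ Col p q b = 0 := by
  have h1 : (⋃ p ∈ Y, {τ : ℝ | a + τ • (b - a) = p}).Finite :=
    hY.biUnion fun p _ => Set.Subsingleton.finite fun τ hτ σ hσ => line_inj hab (hτ.trans hσ.symm)
  have h2 : (⋃ p ∈ Y, ⋃ q ∈ Y, {τ : ℝ | Col p q (a + τ • (b - a)) = 0 ∧
      ¬ (Col p q a = 0 ∧ Col p q b = 0)}).Finite := by
    refine hY.biUnion fun p _ => hY.biUnion fun q _ => Set.Subsingleton.finite ?_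
    rintro τ ⟨e1, e2⟩ σ ⟨e3, -⟩
    rw [col_line] at e1 e3
    by_contra hne
    apply e2
    have hne' : τ - σ ≠ 0 := sub_ne_zero.2 hne
    constructor
    · apply mul_left_cancel₀ hne'
      linear_combination (-σ) * e1 + τ * e3
    · apply mul_left_cancel₀ hne'
      linear_combination (1 - σ) * e1 - (1 - τ) * e3
  obtain ⟨τ, hτT, hτ⟩ := (hT.sdiff (h1.union h2)).nonempty
  refine ⟨τ, hτT, fun h => hτ (Or.inl ?_), fun p hp q hq h => ?_⟩
  · exact Set.mem_biUnion h rfl
  · by_contra hcon
    exact hτ (Or.inr (Set.mem_biUnion hp (Set.mem_biUnion hq ⟨h, hcon⟩)))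

/-- an injective placement of the labels in `Act` without unexpected collinear triples -/
structure Good {L J : Type} (E : J → L → Prop) (Act : Set L) (pos : L → ℝ × ℝ) : Prop where
  inj : Set.InjOn pos Act
  col : ∀ a ∈ Act, ∀ b ∈ Act, ∀ c ∈ Act, a ≠ b → a ≠ c → b ≠ c →
    Col (pos a) (pos b) (pos c) = 0 → ∃ j, E j a ∧ E j b ∧ E j c

lemma add {L J : Type} [Finite L] [DecidableEq L] {E : J → L → Prop} {Act : Set L}
    {pos : L → ℝ × ℝ} (hG : Good E Act pos) {l : L} (hl : l ∉ Act) {j0 : J} (hlj : E j0 l)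
    {u v : L} (hu : u ∈ Act) (hv : v ∈ Act) (huv : u ≠ v) (huE : E j0 u) (hvE : E j0 v)
    (huniq : ∀ j, E j u → E j v → j = j0) {T : Set ℝ} (hT : T.Infinite) :
    ∃ τ ∈ T, Good E (insert l Act) (Function.update pos l (pos u + τ • (pos v - pos u))) := by
  have hne : pos u ≠ pos v := fun h => huv (hG.inj hu hv h)
  obtain ⟨τ, hτT, h1, h2⟩ := avoid (Y := pos '' Act) (Set.toFinite _) hne hT
  refine ⟨τ, hτT, ?_⟩
  set x := pos u + τ • (pos v - pos u) with hx
  have hne' : ∀ a ∈ Act, a ≠ l := fun a ha h => hl (h ▸ ha)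
  have hup : ∀ a ∈ Act, Function.update pos l x a = pos a := fun a ha =>
    Function.update_of_ne (hne' a ha) _ _
  have hul : Function.update pos l x l = x := Function.update_self _ _ _
  have key : ∀ a ∈ Act, ∀ b ∈ Act, a ≠ b → Col (pos a) (pos b) x = 0 → E j0 a ∧ E j0 b := by
    intro a ha b hb hab hcol
    obtain ⟨c1, c2⟩ := h2 _ (Set.mem_image_of_mem _ ha) _ (Set.mem_image_of_mem _ hb) hcol
    have hpab : pos a ≠ pos b := fun h => hab (hG.inj ha hb h)
    have d1 : Col (pos u) (pos v) (pos a) = 0 := col_trans hpab c1 c2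
    have d2 : Col (pos u) (pos v) (pos b) = 0 := by
      refine col_trans hpab.symm ?_ ?_
      · have : Col (pos b) (pos a) (pos u) = -Col (pos a) (pos b) (pos u) := by unfold Col; ring
        rw [this, c1, neg_zero]
      · have : Col (pos b) (pos a) (pos v) = -Col (pos a) (pos b) (pos v) := by unfold Col; ring
        rw [this, c2, neg_zero]
    have main : ∀ c ∈ Act, Col (pos u) (pos v) (pos c) = 0 → E j0 c := by
      intro c hc hcc
      by_cases e1 : c = u
      · rw [e1]; exact huE
      by_cases e2 : c = v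
      · rw [e2]; exact hvE
      obtain ⟨j, k1, k2, k3⟩ := hG.col u hu v hv c hc huv (Ne.symm e1) (Ne.symm e2) hcc
      rw [← huniq j k1 k2]
      exact k3
    exact ⟨main a ha d1, main b hb d2⟩
  constructor
  · intro a ha b hb hab
    rcases ha with rfl | ha
    · rcases hb with rfl | hb
      · rfl
      · rw [hul, hup b hb] at hab
        exact absurd ⟨b, hb, hab.symm⟩ h1
    · rcases hb with rfl | hb
      · rw [hul, hup a ha] at hab
        exact absurd ⟨a, ha, hab⟩ h1
      · rw [hup a ha, hup b hb] at hab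
        exact hG.inj ha hb hab
  · intro a ha b hb c hc hab hac hbc hcol
    rcases ha with rfl | ha
    · have hb' : b ∈ Act := hb.resolve_left (fun h => hab h.symm)
      have hc' : c ∈ Act := hc.resolve_left (fun h => hac h.symm)
      rw [hul, hup b hb', hup c hc', col_rot] at hcol
      obtain ⟨k1, k2⟩ := key b hb' c hc' hbc hcol
      exact ⟨j0, hlj, k1, k2⟩
    · rcases hb with rfl | hb
      · have hc' : c ∈ Act := hc.resolve_left (fun h => hbc h.symm)
        rw [hul, hup a ha, hup c hc', col_rot, col_rot] at hcol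
        obtain ⟨k1, k2⟩ := key c hc' a ha (Ne.symm hac) hcol
        exact ⟨j0, k2, hlj, k1⟩
      · rcases hc with rfl | hc
        · rw [hul, hup a ha, hup b hb] at hcol
          obtain ⟨k1, k2⟩ := key a ha b hb hab hcol
          exact ⟨j0, k1, k2, hlj⟩
        · rw [hup a ha, hup b hb, hup c hc] at hcol
          exact hG.col a ha b hb c hc hab hac hbc hcol

/-- the labels with index less than `k` -/
def Act (M K k : ℕ) : Set (Lab M K) := {a | match a with
  | Sum.inl _ => True
  | Sum.inr (Sum.inl j) => (j : ℕ) < k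
  | Sum.inr (Sum.inr j) => (j : ℕ) < k}

lemma act_succ {M K k : ℕ} (hk : k < K) : Act M K (k + 1) =
    insert (Sum.inr (Sum.inr ⟨k, hk⟩)) (insert (Sum.inr (Sum.inl ⟨k, hk⟩)) (Act M K k)) := by
  ext a
  rcases a with i | j | j
  · simp [Act]
  · simp only [Act, Set.mem_ofPred_eq, Set.mem_insert_iff, Sum.inr.injEq, Sum.inl.injEq,
      reduceCtorEq, false_or, Fin.ext_iff]
    omega
  · simp only [Act, Set.mem_ofPred_eq, Set.mem_insert_iff, Sum.inr.injEq,
      reduceCtorEq, false_or, Fin.ext_iff]
    omega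

theorem p_g2 : S_G2 := by
  intro M K u v y huv hinj hy hcol
  have huniq : ∀ j0 j : Fin K, InE u v j (Sum.inl (u j0) : Lab M K) →
      InE u v j (Sum.inl (v j0) : Lab M K) → j = j0 := by
    intro j0 j h1 h2
    apply hinj
    simp only [InE, Sum.inl.injEq, reduceCtorEq, or_false] at h1 h2
    have h3 := huv j0
    rw [Sym2.eq_iff]
    rcases h1 with h1 | h1 <;> rcases h2 with h2 | h2
    · exact absurd (h1.trans h2.symm) h3
    · exact Or.inl ⟨h1.symm, h2.symm⟩
    · exact Or.inr ⟨h2.symm, h1.symm⟩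
    · exact absurd (h1.trans h2.symm) h3
  have key : ∀ k : ℕ, k ≤ K → ∃ (pos : Lab M K → ℝ × ℝ) (t t' : Fin K → ℝ),
      (∀ i, pos (Sum.inl i) = y i) ∧
      (∀ j : Fin K, (j : ℕ) < k → (0 < t j ∧ t j < 1 ∧ 1 < t' j) ∧
        pos (Sum.inr (Sum.inl j)) = pos (Sum.inl (u j)) +
          t j • (pos (Sum.inl (v j)) - pos (Sum.inl (u j))) ∧
        pos (Sum.inr (Sum.inr j)) = pos (Sum.inl (u j)) +
          t' j • (pos (Sum.inl (v j)) - pos (Sum.inl (u j)))) ∧
      Good (InE u v) (Act M K k) pos := by
    intro k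
    induction k with
    | zero =>
      intro _
      refine ⟨fun a => Sum.elim y (fun _ => 0) a, fun _ => 0, fun _ => 0, fun _ => rfl,
        fun j hj => absurd hj (Nat.not_lt_zero _), ?_, ?_⟩
      · rintro (i | i | i) hi (j | j | j) hj hij
        · exact congrArg _ (hy hij)
        · exact absurd hj (Nat.not_lt_zero _)
        · exact absurd hj (Nat.not_lt_zero _)
        · exact absurd hi (Nat.not_lt_zero _)
        · exact absurd hi (Nat.not_lt_zero _)
        · exact absurd hi (Nat.not_lt_zero _)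
        · exact absurd hi (Nat.not_lt_zero _)
        · exact absurd hi (Nat.not_lt_zero _)
        · exact absurd hi (Nat.not_lt_zero _)
      · intro a ha b hb c hc hab hac hbc h0
        rcases a with a | a | a
        · rcases b with b | b | b
          · rcases c with c | c | c
            · exact absurd h0 (hcol a b c (fun h => hab (h ▸ rfl)) (fun h => hac (h ▸ rfl))
                (fun h => hbc (h ▸ rfl)))
            · exact absurd hc (Nat.not_lt_zero _)
            · exact absurd hc (Nat.not_lt_zero _)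
          · exact absurd hb (Nat.not_lt_zero _)
          · exact absurd hb (Nat.not_lt_zero _)
        · exact absurd ha (Nat.not_lt_zero _)
        · exact absurd ha (Nat.not_lt_zero _)
    | succ k ih =>
      intro hk
      obtain ⟨pos, t, t', h1, h2, h3⟩ := ih (by omega)
      have hkK : k < K := hk
      set j : Fin K := ⟨k, hkK⟩ with hj
      have hu : ∀ i : Fin M, (Sum.inl i : Lab M K) ∈ Act M K k := fun _ => trivial
      have hne : (Sum.inl (u j) : Lab M K) ≠ Sum.inl (v j) := fun h => huv j (Sum.inl.inj h)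
      obtain ⟨τ, hτ, g1⟩ := add h3 (l := Sum.inr (Sum.inl j)) (j0 := j)
        (fun h => absurd (show (j : ℕ) < k from h) (by simp [hj])) (Or.inr (Or.inr (Or.inl rfl)))
        (hu (u j)) (hu (v j)) hne (Or.inl rfl) (Or.inr (Or.inl rfl)) (huniq j)
        (Set.Ioo_infinite (show (0 : ℝ) < 1 by norm_num))
      set pos1 := Function.update pos (Sum.inr (Sum.inl j) : Lab M K)
        (pos (Sum.inl (u j)) + τ • (pos (Sum.inl (v j)) - pos (Sum.inl (u j)))) with hpos1
      have hp1 : ∀ i, pos1 (Sum.inl i) = pos (Sum.inl i) := fun i =>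
        Function.update_of_ne (by simp) _ _
      obtain ⟨τ', hτ', g2⟩ := add g1 (l := Sum.inr (Sum.inr j)) (j0 := j)
        (fun h => by
          rcases h with h | h
          · simp at h
          · exact absurd (show (j : ℕ) < k from h) (by simp [hj]))
        (Or.inr (Or.inr (Or.inr rfl)))
        (Or.inr (hu (u j))) (Or.inr (hu (v j))) hne (Or.inl rfl) (Or.inr (Or.inl rfl)) (huniq j)
        (Set.Ioi_infinite (1 : ℝ))
      set pos2 := Function.update pos1 (Sum.inr (Sum.inr j) : Lab M K)
        (pos1 (Sum.inl (u j)) + τ' • (pos1 (Sum.inl (v j)) - pos1 (Sum.inl (u j)))) with hpos2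
      have hp2 : ∀ i, pos2 (Sum.inl i) = pos (Sum.inl i) := fun i =>
        (Function.update_of_ne (by simp) _ _).trans (hp1 i)
      refine ⟨pos2, Function.update t j τ, Function.update t' j τ', fun i => by rw [hp2, h1],
        fun i hi => ?_, ?_⟩
      · rw [hp2, hp2]
        by_cases hij : i = j
        · rw [hij, Function.update_self, Function.update_self]
          refine ⟨⟨hτ.1, hτ.2, hτ'⟩, ?_, ?_⟩
          · rw [hpos2, Function.update_of_ne (by simp), hpos1, Function.update_self]
          · rw [hpos2, Function.update_self, hp1, hp1]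
        · have hik : (i : ℕ) < k := by
            have : (i : ℕ) ≠ k := fun h => hij (Fin.ext h)
            omega
          rw [Function.update_of_ne hij, Function.update_of_ne hij]
          obtain ⟨f1, f2, f3⟩ := h2 i hik
          refine ⟨f1, ?_, ?_⟩
          · rw [hpos2, Function.update_of_ne (by simp), hpos1,
              Function.update_of_ne (by simp [hij]), f2]
          · rw [hpos2, Function.update_of_ne (by simp [hij]), hpos1,
              Function.update_of_ne (by simp), f3]
      · rw [act_succ hkK]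
        exact g2
  obtain ⟨pos, t, t', h1, h2, h3⟩ := key K le_rfl
  have hall : ∀ a : Lab M K, a ∈ Act M K K := by
    rintro (i | j | j)
    · exact trivial
    · exact j.2
    · exact j.2
  refine ⟨pos, t, t', h1, ⟨fun j => (h2 j j.2).1, fun j => (h2 j j.2).2.1,
    fun j => (h2 j j.2).2.2, fun a b h => h3.inj (hall a) (hall b) h,
    fun a b c hab hac hbc h => h3.col a (hall a) b (hall b) c (hall c) hab hac hbc h⟩⟩

end Pool.Agent.W2helper54.DG
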